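import Pool.Agent.Lib.MP_d0f9e0_co.RankTwo.Sys
import Pool.Agent.Lib.MP_d0f9e0_co.WHNear.Mult
import Pool.Agent.Lib.MP_d0f9e0_co.WHNear.CubicExt

/-!
# The simplex in dimension `d = q - 1`
-/

set_option autoImplicit false

set_option linter.unusedSectionVars false

namespace Pool.Agent.Lib.MP_d0f9e0_co.RankTwo

open Finset Matrix Pool.Agent.Lib.MP_d0f9e0_co.WHNear

open scoped ComplexOrder

variable {A F : Type} [AddCommGroup A] [Fintype A] [DecidableEq A] [Field F] [Fintype F]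
  [DecidableEq F]

/-- The phase vector. -/
noncomputable def E (ψ : AddChar F ℂ) (γ : A → Fˣ) (w : F) (k : A) : ℂ := ψ (w * γ k)

variable {ψ : AddChar F ℂ} {γ : A → Fˣ}

lemma ov_E (hγ : IsExp γ) (hψ : ψ.IsPrimitive) (w w' : F) (i j : A × AddChar A ℂ) :
    ov (D (fun _ _ => 1) i (E ψ γ w)) (D (fun _ _ => 1) j (E ψ γ w')) =
      if w * γ i.1 = w' * γ j.1 then (if i.2 = j.2 then (Fintype.card A : ℝ) ^ 2 else 0)
      else (if i.2 = j.2 then 1 else (Fintype.card F : ℝ)) := by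
  have h1 : ∑ k, D (fun _ _ => 1) i (E ψ γ w) k * star (D (fun _ _ => 1) j (E ψ γ w') k) =
      ∑ k, ψ ((w * γ i.1 - w' * γ j.1) * γ k) * (i.2 * j.2⁻¹) k := by
    refine Finset.sum_congr rfl fun k _ => ?_
    unfold D E
    rw [mul_one, mul_one, star_mul', schar, schar, AddChar.mul_apply, AddChar.inv_apply]
    have h2 : ψ ((w * γ i.1 - w' * γ j.1) * γ k) =
        ψ (w * γ (k + i.1)) * ψ (-(w' * γ (k + j.1))) := by
      rw [← AddChar.map_add_eq_mul]
      congr 1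
      rw [hγ.add, hγ.add]; push_cast; ring
    rw [h2]; ring
  unfold ov
  rw [h1]
  by_cases hc : w * γ i.1 = w' * γ j.1
  · rw [if_pos hc, hc, sub_self]
    simp only [zero_mul, AddChar.map_zero_eq_one, one_mul]
    by_cases h3 : i.2 = j.2
    · rw [if_pos h3, h3, mul_inv_cancel]
      simp
    · rw [if_neg h3, AddChar.sum_eq_zero_of_ne_one (fun h => h3 (mul_inv_eq_one.1 h)), norm_zero]
      norm_num
  · rw [if_neg hc]
    by_cases h3 : i.2 = j.2
    · rw [if_pos h3, h3, mul_inv_cancel]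
      simp only [AddChar.one_apply, mul_one]
      rw [sum_psi hγ hψ (sub_ne_zero.2 hc)]
      norm_num
    · rw [if_neg h3, norm_gauss hγ hψ (sub_ne_zero.2 hc) (fun h => h3 (mul_inv_eq_one.1 h)),
        Real.sq_sqrt (Nat.cast_nonneg _)]

/-- **The simplex for the unit group of a finite field.** -/
theorem unit_case (hγ : IsExp γ) :
    ∃ (Q U : A × AddChar A ℂ → Matrix A A ℂ) (Q₀ : Matrix A A ℂ) (c p : ℝ),
      (∀ i, U i ∈ Matrix.unitaryGroup A ℂ) ∧
      (∀ i j, ∃ (k : A × AddChar A ℂ) (z : ℂ), U i * U j = z • U k) ∧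
      (∀ i, Q i = U i * Q₀ * (U i)ᴴ) ∧
      (∀ i, (Q i).PosSemidef) ∧ (∀ i, (Q i).trace = 1) ∧ (∀ i, (Q i).rank ≤ 3) ∧
      (∀ i j, i ≠ j → (Q i * Q j).trace = c) ∧ (∀ i, (Q i * Q i).trace = p) ∧
      1 - 4 / √(Fintype.card A) ≤ p ∧
      LinearIndependent ℂ Q ∧ ∑ i, Q i = (Fintype.card A : ℂ) • (1 : Matrix A A ℂ) := by
  obtain ⟨θ, hθ⟩ := exists_hom (F := F)
  have hψ : (chr θ).IsPrimitive := AddChar.IsPrimitive.of_ne_one (chr_ne_one hθ)
  generalize chr θ = ψ at hψ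
  have hA : (1 : ℝ) ≤ Fintype.card A := by
    have : Nonempty A := ⟨0⟩
    exact_mod_cast Fintype.card_pos
  set d : ℝ := (Fintype.card A : ℝ) with hd
  have hq : (Fintype.card F : ℝ) = d + 1 := by
    have h := hγ.card
    have h' : (Fintype.card A : ℂ) + 1 = Fintype.card F := by rw [h]; ring
    rw [hd]
    exact_mod_cast h'.symm
  set r : ℝ := √(d + 1) with hr
  have hr2 : r ^ 2 = d + 1 := Real.sq_sqrt (by linarith)
  have hr1 : 1 < r := by
    rw [hr, Real.lt_sqrt (by norm_num)]; linarith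
  have hr0 : 0 < r := by linarith
  have hd0 : 0 < d := by linarith
  set s : ℝ := √d with hs
  have hs2 : s ^ 2 = d := Real.sq_sqrt (by linarith)
  have hs0 : 0 < s := Real.sqrt_pos.2 hd0
  have hunit : ∀ (a b : A), γ a = γ b ↔ a = b := fun a b => hγ.bij.1.eq_iff
  have hone : ∀ a k : A, ‖(fun _ _ => (1 : ℂ)) a k‖ = 1 := fun _ _ => norm_one
  set v : A → ℂ := fun k => ((s⁻¹ : ℝ) : ℂ) * E ψ γ 1 k with hv
  set u : A → ℂ := fun k => ((s⁻¹ : ℝ) : ℂ) * E ψ γ 0 k with hu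
  have hflat : ∀ (w : F) k, ‖((s⁻¹ : ℝ) : ℂ) * E ψ γ w k‖ ^ 2 = d⁻¹ := by
    intro w k
    unfold E
    rw [norm_mul, nchar, mul_one, Complex.norm_real, Real.norm_eq_abs, sq_abs, inv_pow, hs2]
  have hsum : ∀ (w : F), ∑ k, ‖((s⁻¹ : ℝ) : ℂ) * E ψ γ w k‖ ^ 2 = 1 := by
    intro w
    simp_rw [hflat w]
    rw [Finset.sum_const, Finset.card_univ, nsmul_eq_mul, ← hd, mul_inv_cancel₀ hd0.ne']
  have hs4 : s⁻¹ ^ 2 = d⁻¹ := by rw [inv_pow, hs2]
  have hvv : ∀ i j : A × AddChar A ℂ, ov (D (fun _ _ => 1) i v) (D (fun _ _ => 1) j v) =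
      d⁻¹ * d⁻¹ * (if i.1 = j.1 then (if i.2 = j.2 then d ^ 2 else 0)
        else (if i.2 = j.2 then 1 else d + 1)) := by
    intro i j
    rw [hv, D_smul, D_smul, ov_smul, ov_E hγ hψ, hs4, ← hd, hq]
    simp only [one_mul, Units.val_inj, hunit]
  have huu : ∀ i j : A × AddChar A ℂ, ov (D (fun _ _ => 1) i u) (D (fun _ _ => 1) j u) =
      d⁻¹ * d⁻¹ * (if i.2 = j.2 then d ^ 2 else 0) := by
    intro i j
    rw [hu, D_smul, D_smul, ov_smul, ov_E hγ hψ, hs4, ← hd, hq]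
    simp only [zero_mul, if_true]
  have hvu : ∀ i j : A × AddChar A ℂ, ov (D (fun _ _ => 1) i v) (D (fun _ _ => 1) j u) =
      d⁻¹ * d⁻¹ * (if i.2 = j.2 then 1 else d + 1) := by
    intro i j
    rw [hu, hv, D_smul, D_smul, ov_smul, ov_E hγ hψ, hs4, ← hd, hq]
    simp only [one_mul, zero_mul, Units.ne_zero, if_false]
  have hve : ∀ i j : A × AddChar A ℂ, ov (D (fun _ _ => 1) i v) (D (fun _ _ => 1) j dl) = d⁻¹ :=
    fun i j => ov_flat hone (fun k => by
      rw [norm_D hone]; exact hflat 1 (k + i.1)) j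
  have heu : ∀ i j : A × AddChar A ℂ, ov (D (fun _ _ => 1) i dl) (D (fun _ _ => 1) j u) = d⁻¹ :=
    fun i j => by
      rw [ov_comm]
      exact ov_flat hone (fun k => by
        rw [norm_D hone]; exact hflat 0 (k + j.1)) i
  have hee : ∀ i j : A × AddChar A ℂ, ov (D (fun _ _ => 1) i dl) (D (fun _ _ => 1) j dl) =
      if i.1 = j.1 then 1 else 0 := ov_dl hone
  have hdr : d = r ^ 2 - 1 := by linarith
  have hr3 : 0 < r ^ 2 - 1 := by linarith
  obtain ⟨Q, U, Q₀, k1, k2, k3, k4, k5, k6, -, k7, k8, k9, k10⟩ := package (f := fun _ _ => 1) hone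
    (fun a b => ⟨1, 1, fun x => by simp⟩) Fintype.card_pos
    (x := (r ^ 2 - 1) / (r * (r + 2))) (y := 1 / (r + 2)) (z := (r + 1) / (r * (r + 2)))
    (by positivity) (by positivity) (by positivity)
    (by field_simp; ring) (hsum 1) sum_dl (hsum 0)
    (c := (1 - (1 / (r + 2)) ^ 2) / (r ^ 2 - 1))
    (p := (1 + ((r ^ 2 - 1) ^ 2 - 1) * (1 / (r + 2)) ^ 2) / (r ^ 2 - 1))
    (by
      have : (1 / (r + 2)) ^ 2 ≤ 1 :=
        pow_le_one₀ (by positivity) (by rw [div_le_one (by linarith)]; linarith)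
      exact div_nonneg (by linarith) hr3.le)
    (by
      refine div_lt_div_of_pos_right ?_ hr3
      have h1 : 0 < (1 / (r + 2)) ^ 2 := by positivity
      have h2 : 0 < (r ^ 2 - 1) ^ 2 := by positivity
      nlinarith [mul_pos h2 h1])
    (by
      intro i j hij
      rw [hvv, huu, hvu, hvu, hve, hve, hee, heu, heu, hdr]
      by_cases h : i.1 = j.1
      · have h' : ¬ i.2 = j.2 := fun h2 => hij (Prod.ext h h2)
        have h'' : ¬ j.2 = i.2 := fun h2 => h' h2.symm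
        simp only [if_pos h, if_neg h', if_neg h'']
        field_simp
        ring
      · by_cases h' : i.2 = j.2
        · have h'' : j.2 = i.2 := h'.symm
          simp only [if_neg h, if_pos h', if_pos h'']
          field_simp
          ring
        · have h'' : ¬ j.2 = i.2 := fun h2 => h' h2.symm
          simp only [if_neg h, if_neg h', if_neg h'']
          field_simp
          ring)
    (by
      intro i
      rw [hvv, huu, hvu, hve, hee, heu, hdr]
      simp only [if_true]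
      field_simp
      ring)
  refine ⟨Q, U, Q₀, _, _, k1, k2, k3, k4, k5, k6, k7, k8, ?_, k9, k10⟩
  have hsr : s ≤ r := Real.sqrt_le_sqrt (by linarith)
  have h3 : 4 / r ≤ 4 / s := div_le_div_of_nonneg_left (by norm_num) hs0 hsr
  have h4 : 1 - 4 / r ≤ (1 + ((r ^ 2 - 1) ^ 2 - 1) * (1 / (r + 2)) ^ 2) / (r ^ 2 - 1) := by
    rw [le_div_iff₀ hr3]
    have h5 : (1 + ((r ^ 2 - 1) ^ 2 - 1) * (1 / (r + 2)) ^ 2) - (1 - 4 / r) * (r ^ 2 - 1) =
        (12 * r ^ 3 + 20 * r ^ 2 - 8 * r - 16) / (r * (r + 2) ^ 2) := by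
      field_simp
      ring
    have h6 : 0 ≤ (12 * r ^ 3 + 20 * r ^ 2 - 8 * r - 16) / (r * (r + 2) ^ 2) := by
      refine div_nonneg ?_ (by positivity)
      nlinarith [mul_pos hr0 (sub_pos.2 hr1), mul_pos (mul_pos hr0 hr0) (sub_pos.2 hr1)]
    linarith
  linarith

end Pool.Agent.Lib.MP_d0f9e0_co.RankTwo
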