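import Pool.Agent.Lib.MP_d0f9e0_co.RankTwo.Mub
import Pool.Agent.Lib.MP_d0f9e0_co.RankTwo.Unit

/-!
# Exact regular simplices of `d ^ 2` states of small rank: the final statement
-/

set_option autoImplicit false

namespace Pool.Agent.Lib.MP_d0f9e0_co.RankTwo

open Finset Matrix Pool.Agent.Lib.MP_d0f9e0_co.WHNear

open scoped ComplexOrder

/-- Transport to `Fin d` and `Fin (d ^ 2)`. -/
lemma transport {d r : ℕ} {A ι : Type} [Fintype A] [DecidableEq A] [Fintype ι]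
    (e : Fin d ≃ A) (g : Fin (d ^ 2) ≃ ι) {b : ℝ} (hd : Fintype.card A = d)
    (h : ∃ (Q U : ι → Matrix A A ℂ) (Q₀ : Matrix A A ℂ) (c p : ℝ),
      (∀ i, U i ∈ Matrix.unitaryGroup A ℂ) ∧
      (∀ i j, ∃ (k : ι) (z : ℂ), U i * U j = z • U k) ∧
      (∀ i, Q i = U i * Q₀ * (U i)ᴴ) ∧
      (∀ i, (Q i).PosSemidef) ∧ (∀ i, (Q i).trace = 1) ∧ (∀ i, (Q i).rank ≤ r) ∧
      (∀ i j, i ≠ j → (Q i * Q j).trace = c) ∧ (∀ i, (Q i * Q i).trace = p) ∧
      b ≤ p ∧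
      LinearIndependent ℂ Q ∧ ∑ i, Q i = (Fintype.card A : ℂ) • (1 : Matrix A A ℂ)) :
    ∃ (Q U : Fin (d ^ 2) → Matrix (Fin d) (Fin d) ℂ) (Q₀ : Matrix (Fin d) (Fin d) ℂ) (c p : ℝ),
      (∀ i, (Q i).PosSemidef) ∧ (∀ i, (Q i).trace = 1) ∧ (∀ i, (Q i).rank ≤ r) ∧
      (∀ i j, i ≠ j → (Q i * Q j).trace = c) ∧ (∀ i, (Q i * Q i).trace = p) ∧ b ≤ p ∧
      ∑ i, Q i = (d : ℂ) • (1 : Matrix (Fin d) (Fin d) ℂ) ∧ LinearIndependent ℂ Q ∧
      (∀ i, U i ∈ Matrix.unitaryGroup (Fin d) ℂ) ∧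
      (∀ i j, ∃ (k : Fin (d ^ 2)) (z : ℂ), U i * U j = z • U k) ∧
      (∀ i, Q i = U i * Q₀ * (U i)ᴴ) := by
  obtain ⟨Q, U, Q₀, c, p, h1, h2, h3, h4, h5, h6, h7, h8, h9, h10, h11⟩ := h
  have htr : ∀ M : Matrix A A ℂ, (M.submatrix e e).trace = M.trace := fun M =>
    Equiv.sum_comp e fun k => M k k
  have hsm : ∀ (z : ℂ) (M : Matrix A A ℂ), (z • M).submatrix e e = z • M.submatrix e e :=
    fun _ _ => rfl
  refine ⟨fun i => (Q (g i)).submatrix e e, fun i => (U (g i)).submatrix e e,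
    Q₀.submatrix e e, c, p, fun i => (h4 _).submatrix e, fun i => ?_, fun i => ?_,
    fun i j hij => ?_, fun i => ?_, h9, ?_, ?_, fun i => ?_, fun i j => ?_, fun i => ?_⟩
  · rw [htr, h5]
  · rw [Matrix.rank_submatrix]; exact h6 _
  · rw [Matrix.submatrix_mul_equiv, htr, h7 _ _ (fun h => hij (g.injective h))]
  · rw [Matrix.submatrix_mul_equiv, htr, h8]
  · have e1 : ∑ i, (Q (g i)).submatrix e e = (∑ i, Q i).submatrix e e := by
      rw [← Equiv.sum_comp g Q]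
      ext k l
      simp only [Matrix.sum_apply, Matrix.submatrix_apply]
    rw [e1, h11, hsm, Matrix.submatrix_one_equiv, hd]
  · have e2 : (fun i => (Q (g i)).submatrix e e) =
        (Matrix.reindexLinearEquiv ℂ ℂ e.symm e.symm).toLinearMap ∘ (Q ∘ g) := by
      ext i k l
      rfl
    rw [e2]
    refine LinearIndependent.map' (h10.comp g g.injective) _ ?_
    exact LinearEquiv.ker _
  · have h := h1 (g i)
    rw [Matrix.mem_unitaryGroup_iff] at h ⊢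
    have e3 : star ((U (g i)).submatrix e e) = (star (U (g i))).submatrix e e := rfl
    rw [e3, Matrix.submatrix_mul_equiv, h, Matrix.submatrix_one_equiv]
  · obtain ⟨k, z, h⟩ := h2 (g i) (g j)
    refine ⟨g.symm k, z, ?_⟩
    show (U (g i)).submatrix e e * (U (g j)).submatrix e e =
      z • (U (g (g.symm k))).submatrix e e
    rw [Matrix.submatrix_mul_equiv, h, Equiv.apply_symm_apply, hsm]
  · have e4 : ((U (g i)).submatrix e e)ᴴ = ((U (g i))ᴴ).submatrix e e := rfl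
    show (Q (g i)).submatrix e e = (U (g i)).submatrix e e * Q₀.submatrix e e *
      ((U (g i)).submatrix e e)ᴴ
    rw [e4, Matrix.submatrix_mul_equiv, Matrix.submatrix_mul_equiv, ← h3]

/-- The dimension is a prime power. -/
theorem main_pp {d : ℕ} (h : IsPrimePow d) :
    ∃ (Q U : Fin (d ^ 2) → Matrix (Fin d) (Fin d) ℂ) (Q₀ : Matrix (Fin d) (Fin d) ℂ) (c p : ℝ),
      (∀ i, (Q i).PosSemidef) ∧ (∀ i, (Q i).trace = 1) ∧ (∀ i, (Q i).rank ≤ 2) ∧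
      (∀ i j, i ≠ j → (Q i * Q j).trace = c) ∧ (∀ i, (Q i * Q i).trace = p) ∧ 1 - 2 / √d ≤ p ∧
      ∑ i, Q i = (d : ℂ) • (1 : Matrix (Fin d) (Fin d) ℂ) ∧ LinearIndependent ℂ Q ∧
      (∀ i, U i ∈ Matrix.unitaryGroup (Fin d) ℂ) ∧
      (∀ i j, ∃ (k : Fin (d ^ 2)) (z : ℂ), U i * U j = z • U k) ∧
      (∀ i, Q i = U i * Q₀ * (U i)ᴴ) := by
  classical
  obtain ⟨q, n, hq, hn, rfl⟩ := (isPrimePow_nat_iff _).1 h
  have : Fact q.Prime := ⟨hq⟩
  let F : Type := GaloisField q n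
  have : Fintype F := Fintype.ofFinite F
  have hF : Fintype.card F = q ^ n := by
    rw [← Nat.card_eq_fintype_card]; exact GaloisField.card q n hn.ne'
  have e : Fin (q ^ n) ≃ F := (Fintype.equivFinOfCardEq hF).symm
  have hg : Fintype.card (F × AddChar F ℂ) = (q ^ n) ^ 2 := by
    rw [Fintype.card_prod, AddChar.card_eq, hF, sq]
  have g : Fin ((q ^ n) ^ 2) ≃ F × AddChar F ℂ := (Fintype.equivFinOfCardEq hg).symm
  refine transport e g hF ?_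
  obtain ⟨Q, U, Q₀, c, p, h1, h2, h3, h4, h5, h6, h7, h8, h9, h10, h11⟩ := field_case (F := F)
  refine ⟨Q, U, Q₀, c, p, h1, h2, h3, h4, h5, h6, h7, h8, ?_, h10, h11⟩
  rw [← hF]; exact h9

/-- The successor of the dimension is a prime power. -/
theorem main_succ {d : ℕ} (hd : 2 ≤ d) (h : IsPrimePow (d + 1)) :
    ∃ (Q U : Fin (d ^ 2) → Matrix (Fin d) (Fin d) ℂ) (Q₀ : Matrix (Fin d) (Fin d) ℂ) (c p : ℝ),
      (∀ i, (Q i).PosSemidef) ∧ (∀ i, (Q i).trace = 1) ∧ (∀ i, (Q i).rank ≤ 3) ∧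
      (∀ i j, i ≠ j → (Q i * Q j).trace = c) ∧ (∀ i, (Q i * Q i).trace = p) ∧ 1 - 4 / √d ≤ p ∧
      ∑ i, Q i = (d : ℂ) • (1 : Matrix (Fin d) (Fin d) ℂ) ∧ LinearIndependent ℂ Q ∧
      (∀ i, U i ∈ Matrix.unitaryGroup (Fin d) ℂ) ∧
      (∀ i j, ∃ (k : Fin (d ^ 2)) (z : ℂ), U i * U j = z • U k) ∧
      (∀ i, Q i = U i * Q₀ * (U i)ᴴ) := by
  classical
  obtain ⟨q, n, hq, hn, hqn⟩ := (isPrimePow_nat_iff _).1 h
  have : Fact q.Prime := ⟨hq⟩
  let F : Type := GaloisField q n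
  have : Fintype F := Fintype.ofFinite F
  have hF : Fintype.card F = d + 1 := by
    rw [← Nat.card_eq_fintype_card, GaloisField.card q n hn.ne', hqn]
  let A : Type := Additive Fˣ
  have hA : Fintype.card A = d := by
    have h1 : Fintype.card Fˣ = Fintype.card F - 1 := Fintype.card_units F
    have h2 : Fintype.card A = Fintype.card Fˣ := Fintype.card_congr Additive.toMul
    omega
  have e : Fin d ≃ A := (Fintype.equivFinOfCardEq hA).symm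
  have hg : Fintype.card (A × AddChar A ℂ) = d ^ 2 := by
    rw [Fintype.card_prod, AddChar.card_eq, hA, sq]
  have g : Fin (d ^ 2) ≃ A × AddChar A ℂ := (Fintype.equivFinOfCardEq hg).symm
  have hγ : IsExp (fun k : A => Additive.toMul k) :=
    ⟨Additive.toMul.bijective, fun k l => toMul_add k l⟩
  refine transport e g hA ?_
  obtain ⟨Q, U, Q₀, c, p, h1, h2, h3, h4, h5, h6, h7, h8, h9, h10, h11⟩ := unit_case hγ
  refine ⟨Q, U, Q₀, c, p, h1, h2, h3, h4, h5, h6, h7, h8, ?_, h10, h11⟩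
  rw [hA] at h9; exact h9

/-- **Exact regular simplices of `d ^ 2` nearly pure states of rank at most three.** -/
theorem main : ∀ d : ℕ, 2 ≤ d → IsPrimePow d ∨ IsPrimePow (d + 1) →
    ∃ (Q U : Fin (d ^ 2) → Matrix (Fin d) (Fin d) ℂ) (Q₀ : Matrix (Fin d) (Fin d) ℂ) (c p : ℝ),
      (∀ i, (Q i).PosSemidef) ∧ (∀ i, (Q i).trace = 1) ∧
      (∀ i, (Q i).rank ≤ 3) ∧ (IsPrimePow d → ∀ i, (Q i).rank ≤ 2) ∧
      (∀ i j, i ≠ j → (Q i * Q j).trace = c) ∧ (∀ i, (Q i * Q i).trace = p) ∧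
      1 - 4 / √d ≤ p ∧ (IsPrimePow d → 1 - 2 / √d ≤ p) ∧
      ∑ i, Q i = (d : ℂ) • (1 : Matrix (Fin d) (Fin d) ℂ) ∧ LinearIndependent ℂ Q ∧
      (∀ i, U i ∈ Matrix.unitaryGroup (Fin d) ℂ) ∧
      (∀ i j, ∃ (k : Fin (d ^ 2)) (z : ℂ), U i * U j = z • U k) ∧
      (∀ i, Q i = U i * Q₀ * (U i)ᴴ) := by
  intro d hd h
  by_cases hpp : IsPrimePow d
  · obtain ⟨Q, U, Q₀, c, p, h1, h2, h3, h4, h5, h6, h7, h8, h9, h10, h11⟩ := main_pp hpp
    refine ⟨Q, U, Q₀, c, p, h1, h2, fun i => (h3 i).trans (by norm_num), fun _ => h3, h4, h5, ?_,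
      fun _ => h6, h7, h8, h9, h10, h11⟩
    refine le_trans ?_ h6
    have h0 : (0 : ℝ) < √d := by
      have : 0 < d := by omega
      exact Real.sqrt_pos.2 (by exact_mod_cast this)
    have : 2 / √(d : ℝ) ≤ 4 / √d := div_le_div_of_nonneg_right (by norm_num) h0.le
    linarith
  · obtain ⟨Q, U, Q₀, c, p, h1, h2, h3, h4, h5, h6, h7, h8, h9, h10, h11⟩ :=
      main_succ hd (h.resolve_left hpp)
    exact ⟨Q, U, Q₀, c, p, h1, h2, h3, fun h => absurd h hpp, h4, h5, h6,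
      fun h => absurd h hpp, h7, h8, h9, h10, h11⟩

end Pool.Agent.Lib.MP_d0f9e0_co.RankTwo
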