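import Pool.Agent.Lib.MP_d0f9e0_co.WHNear.CubicExt

/-!
# Quadratic phases in every characteristic
-/

set_option autoImplicit false

namespace Pool.Agent.Lib.MP_d0f9e0_co.RankTwo

open Finset Pool.Agent.Lib.MP_d0f9e0_co.WHNear

variable {F : Type} [Field F]

/-- The extension of `F` by the circle with the cocycle `γ (x y)`. -/
@[ext] structure Ex (γ : F →+ AddCircle (1 : ℝ)) where
  /-- base point -/
  x : F
  /-- fibre coordinate -/
  u : AddCircle (1 : ℝ)

namespace Ex

variable {γ : F →+ AddCircle (1 : ℝ)}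

instance : Add (Ex γ) := ⟨fun p q => ⟨p.x + q.x, p.u + q.u + γ (p.x * q.x)⟩⟩
instance : Zero (Ex γ) := ⟨⟨0, 0⟩⟩
instance : Neg (Ex γ) := ⟨fun p => ⟨-p.x, -p.u + γ (p.x * p.x)⟩⟩

lemma add_x (p q : Ex γ) : (p + q).x = p.x + q.x := rfl
lemma add_u (p q : Ex γ) : (p + q).u = p.u + q.u + γ (p.x * q.x) := rfl
lemma zero_x : (0 : Ex γ).x = 0 := rfl
lemma zero_u : (0 : Ex γ).u = 0 := rfl
lemma neg_x (p : Ex γ) : (-p).x = -p.x := rfl
lemma neg_u (p : Ex γ) : (-p).u = -p.u + γ (p.x * p.x) := rfl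

instance : AddCommGroup (Ex γ) where
  add_assoc p q r := by
    ext
    · simp only [add_x, add_assoc]
    · simp only [add_u, add_x]
      have h : γ (p.x * q.x) + γ ((p.x + q.x) * r.x) =
          γ (q.x * r.x) + γ (p.x * (q.x + r.x)) := by
        rw [← map_add, ← map_add]; congr 1; ring
      calc p.u + q.u + γ (p.x * q.x) + r.u + γ ((p.x + q.x) * r.x)
          = p.u + q.u + r.u + (γ (p.x * q.x) + γ ((p.x + q.x) * r.x)) := by abel
        _ = _ := by rw [h]; abel
  zero_add p := by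
    ext
    · simp [add_x, zero_x]
    · simp [add_u, zero_x, zero_u]
  add_zero p := by
    ext
    · simp [add_x, zero_x]
    · simp [add_u, zero_x, zero_u]
  add_comm p q := by
    ext
    · simp only [add_x, add_comm]
    · simp only [add_u]
      rw [add_comm p.u, mul_comm p.x]
  neg_add_cancel p := by
    ext
    · simp [add_x, neg_x, zero_x]
    · simp [add_u, neg_x, neg_u, zero_u]
  nsmul := nsmulRec
  zsmul := zsmulRec

/-- The inclusion of the circle. -/
def incl (γ : F →+ AddCircle (1 : ℝ)) : AddCircle (1 : ℝ) →+ Ex γ where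
  toFun a := ⟨0, a⟩
  map_zero' := rfl
  map_add' a b := by
    ext
    · simp [add_x]
    · simp [add_u]

lemma incl_injective : Function.Injective (incl γ) := fun a b h => by
  have := congrArg Ex.u h
  exact this

end Ex

/-- The cocycle `γ (x y)` is a coboundary. -/
lemma exists_prim (γ : F →+ AddCircle (1 : ℝ)) :
    ∃ B : F → AddCircle (1 : ℝ), ∀ x y, B (x + y) = B x + B y + γ (x * y) := by
  have : Fact ((0 : ℝ) < 1) := ⟨one_pos⟩
  obtain ⟨g, hg⟩ := (Module.Baer.of_divisible (AddCircle (1 : ℝ))).extension_property_addMonoidHom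
    (Ex.incl γ) Ex.incl_injective (AddMonoidHom.id _)
  refine ⟨fun x => - g ⟨x, 0⟩, fun x y => ?_⟩
  have h1 : (⟨x, 0⟩ : Ex γ) + ⟨y, 0⟩ = ⟨x + y, 0⟩ + Ex.incl γ (γ (x * y)) := by
    ext
    · simp [Ex.add_x, Ex.incl]
    · simp [Ex.add_u, Ex.incl]
  have h2 := congrArg g h1
  rw [map_add, map_add] at h2
  have h3 : g (Ex.incl γ (γ (x * y))) = γ (x * y) := DFunLike.congr_fun hg _
  rw [h3] at h2
  have h4 : g ⟨x + y, 0⟩ = g ⟨x, 0⟩ + g ⟨y, 0⟩ - γ (x * y) := by
    rw [h2, add_sub_cancel_right]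
  show -g ⟨x + y, 0⟩ = -g ⟨x, 0⟩ + -g ⟨y, 0⟩ + γ (x * y)
  rw [h4]; abel

/-- **Quadratic phases** on a finite field of any characteristic. -/
theorem exists_quad [Finite F] : ∃ (ψ : AddChar F ℂ) (f : F → F → ℂ), ψ ≠ 1 ∧
    (∀ a k, ‖f a k‖ = 1) ∧ (∀ a k l, f a (k + l) = f a k * f a l * ψ (a * k * l)) := by
  obtain ⟨γ, hγ⟩ := exists_hom (F := F)
  choose B hB using fun a : F => exists_prim (γ.comp (AddMonoidHom.mulLeft a))
  refine ⟨chr γ, fun a k => ((B a k).toCircle : ℂ), chr_ne_one hγ, fun a k => Circle.norm_coe _,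
    fun a k l => ?_⟩
  have e : (γ.comp (AddMonoidHom.mulLeft a)) (k * l) = γ (a * k * l) := by
    show γ (a * (k * l)) = _
    rw [mul_assoc]
  show ((B a (k + l)).toCircle : ℂ) = _
  rw [hB, e, AddCircle.toCircle_add, AddCircle.toCircle_add, chr_apply]
  push_cast
  rfl

variable [Fintype F]

/-- A quadratic sum has modulus `√q`. -/
lemma sum_quad {h : F → ℂ} {ψ : AddChar F ℂ} (hψ : ψ ≠ 1) {c : F} (hc : c ≠ 0)
    (hn : ∀ x, ‖h x‖ = 1) (hadd : ∀ x y, h (x + y) = h x * h y * ψ (c * x * y)) :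
    ‖∑ x, h x‖ ^ 2 = Fintype.card F := by
  classical
  have hprim : ψ.IsPrimitive := AddChar.IsPrimitive.of_ne_one hψ
  have hself : ∀ x, h x * star (h x) = 1 := fun x => by
    rw [Complex.star_def, Complex.mul_conj, Complex.normSq_eq_norm_sq, hn]; simp
  have h0 : h 0 = 1 := by
    have h1 := hadd 0 0
    rw [add_zero, mul_zero, AddChar.map_zero_eq_one, mul_one] at h1
    have h2 : h 0 ≠ 0 := fun h3 => by
      have := hself 0
      rw [h3, zero_mul] at this
      exact zero_ne_one this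
    exact mul_left_cancel₀ h2 (by rw [← h1, mul_one])
  have h1 : (∑ x, h x) * star (∑ x, h x) = (Fintype.card F : ℂ) := by
    rw [star_sum, Finset.sum_mul_sum, Finset.sum_comm]
    have e1 : ∀ l : F, ∑ k, h k * star (h l) = ∑ y, h y * ψ (l * (c * y)) := by
      intro l
      rw [← Equiv.sum_comp (Equiv.addLeft l)]
      refine Finset.sum_congr rfl fun y _ => ?_
      rw [Equiv.coe_addLeft, hadd]
      calc h l * h y * ψ (c * l * y) * star (h l)
          = h l * star (h l) * (h y * ψ (c * l * y)) := by ring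
        _ = _ := by rw [hself, one_mul]; congr 2; ring
    simp_rw [e1]
    rw [Finset.sum_comm]
    simp_rw [← Finset.mul_sum, AddChar.sum_mulShift _ hprim]
    rw [Finset.sum_eq_single (0 : F)]
    · simp [h0]
    · intro y _ hy
      rw [if_neg (mul_ne_zero hc hy)]
      simp
    · intro h
      exact absurd (Finset.mem_univ _) h
  rw [Complex.star_def, Complex.mul_conj, Complex.normSq_eq_norm_sq] at h1
  exact_mod_cast h1

end Pool.Agent.Lib.MP_d0f9e0_co.RankTwo
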