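import Pool.Agent.Lib.MP_d0f9e0_co.RankTwo.Sys
import Pool.Agent.Lib.MP_d0f9e0_co.RankTwo.Phase

/-!
# The simplex in dimension `d` a prime power
-/

set_option autoImplicit false

set_option linter.unusedSectionVars false

namespace Pool.Agent.Lib.MP_d0f9e0_co.RankTwo

open Finset Matrix

open scoped ComplexOrder

variable {F : Type} [Field F] [Fintype F] [DecidableEq F]

section

variable {ψ : AddChar F ℂ} {f : F → F → ℂ}

lemma quad_zero (hn : ∀ a k, ‖f a k‖ = 1)
    (hadd : ∀ a k l, f a (k + l) = f a k * f a l * ψ (a * k * l)) (a : F) : f a 0 = 1 := by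
  have h1 := hadd a 0 0
  rw [add_zero, mul_zero, AddChar.map_zero_eq_one, mul_one] at h1
  have h2 : f a 0 ≠ 0 := fun h3 => by
    have := hn a 0
    rw [h3, norm_zero] at this
    exact zero_ne_one this
  exact mul_left_cancel₀ h2 (by rw [← h1, mul_one])

/-- The quadratic phases form a system closed under products. -/
lemma quad_closed (hn : ∀ a k, ‖f a k‖ = 1)
    (hadd : ∀ a k l, f a (k + l) = f a k * f a l * ψ (a * k * l)) (a b : F) :
    ∃ (χ : AddChar F ℂ) (z : ℂ), ∀ x, f a x * f b (x + a) = z * χ x * f (a + b) x := by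
  let χ : AddChar F ℂ :=
    { toFun := fun x => f a x * f b x * star (f (a + b) x) * ψ (a * b * x)
      map_zero_eq_one' := by
        rw [quad_zero hn hadd, quad_zero hn hadd, quad_zero hn hadd, mul_zero,
          AddChar.map_zero_eq_one]
        simp
      map_add_eq_mul' := fun x y => by
        rw [hadd a, hadd b, hadd (a + b), star_mul', star_mul', schar, mul_add,
          AddChar.map_add_eq_mul ψ (a * b * x)]
        have h1 : ψ (a * x * y) * ψ (b * x * y) * ψ (-((a + b) * x * y)) = 1 := by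
          rw [← AddChar.map_add_eq_mul, ← AddChar.map_add_eq_mul]
          have : a * x * y + b * x * y + -((a + b) * x * y) = 0 := by ring
          rw [this, AddChar.map_zero_eq_one]
        calc f a x * f a y * ψ (a * x * y) * (f b x * f b y * ψ (b * x * y)) *
              (star (f (a + b) x) * star (f (a + b) y) * ψ (-((a + b) * x * y))) *
              (ψ (a * b * x) * ψ (a * b * y))
            = (ψ (a * x * y) * ψ (b * x * y) * ψ (-((a + b) * x * y))) *
              (f a x * f b x * star (f (a + b) x) * ψ (a * b * x) *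
              (f a y * f b y * star (f (a + b) y) * ψ (a * b * y))) := by ring
          _ = _ := by rw [h1, one_mul] }
  refine ⟨χ, f b a, fun x => ?_⟩
  have h2 : χ x = f a x * f b x * star (f (a + b) x) * ψ (a * b * x) := rfl
  rw [h2, hadd b x a, show b * x * a = a * b * x by ring]
  calc f a x * (f b x * f b a * ψ (a * b * x))
      = f b a * (f a x * f b x * 1 * ψ (a * b * x)) := by ring
    _ = f b a * (f a x * f b x * (f (a + b) x * star (f (a + b) x)) * ψ (a * b * x)) := by
        rw [self_star (hn _ _)]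
    _ = _ := by ring

lemma ov_quad (hψ : ψ ≠ 1) (hn : ∀ a k, ‖f a k‖ = 1)
    (hadd : ∀ a k l, f a (k + l) = f a k * f a l * ψ (a * k * l)) (i j : F × AddChar F ℂ) :
    ov (D f i fun _ => 1) (D f j fun _ => 1) =
      if i = j then (Fintype.card F : ℝ) ^ 2 else if i.1 = j.1 then 0 else Fintype.card F := by
  have h1 : ∑ k, D f i (fun _ => 1) k * star (D f j (fun _ => 1) k) =
      ∑ k, i.2 k * f i.1 k * star (j.2 k * f j.1 k) := by
    refine Finset.sum_congr rfl fun k _ => ?_
    unfold D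
    rw [mul_one, mul_one]
  unfold ov
  rw [h1]
  by_cases hij : i.1 = j.1
  · have h2 : ∀ k, i.2 k * f i.1 k * star (j.2 k * f j.1 k) = (i.2 * j.2⁻¹) k := by
      intro k
      rw [hij, star_mul', schar, AddChar.mul_apply, AddChar.inv_apply]
      calc i.2 k * f j.1 k * (j.2 (-k) * star (f j.1 k))
          = i.2 k * j.2 (-k) * (f j.1 k * star (f j.1 k)) := by ring
        _ = _ := by rw [self_star (hn _ _), mul_one]
    simp_rw [h2]
    by_cases h3 : i.2 = j.2
    · have h4 : i = j := Prod.ext hij h3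
      subst h4
      rw [if_pos rfl, mul_inv_cancel]
      simp
    · rw [if_neg (fun h => h3 (congrArg Prod.snd h)), if_pos hij,
        AddChar.sum_eq_zero_of_ne_one (fun h => h3 (mul_inv_eq_one.1 h)), norm_zero]
      norm_num
  · rw [if_neg (fun h => hij (congrArg Prod.fst h)), if_neg hij]
    refine sum_quad hψ (c := i.1 - j.1) (sub_ne_zero.2 hij) ?_ ?_
    · intro k
      rw [norm_mul, norm_star, norm_mul, norm_mul, nchar, nchar, hn, hn]; norm_num
    · intro k l
      rw [hadd, hadd, AddChar.map_add_eq_mul, AddChar.map_add_eq_mul, star_mul', star_mul',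
        star_mul', star_mul', star_mul', star_mul', schar ψ]
      have h5 : ψ ((i.1 - j.1) * k * l) = ψ (i.1 * k * l) * ψ (-(j.1 * k * l)) := by
        rw [← AddChar.map_add_eq_mul]; congr 1; ring
      rw [h5]; ring

end

/-- **The simplex for a finite field.** -/
theorem field_case : ∃ (Q U : F × AddChar F ℂ → Matrix F F ℂ) (Q₀ : Matrix F F ℂ) (c p : ℝ),
      (∀ i, U i ∈ Matrix.unitaryGroup F ℂ) ∧
      (∀ i j, ∃ (k : F × AddChar F ℂ) (z : ℂ), U i * U j = z • U k) ∧
      (∀ i, Q i = U i * Q₀ * (U i)ᴴ) ∧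
      (∀ i, (Q i).PosSemidef) ∧ (∀ i, (Q i).trace = 1) ∧ (∀ i, (Q i).rank ≤ 2) ∧
      (∀ i j, i ≠ j → (Q i * Q j).trace = c) ∧ (∀ i, (Q i * Q i).trace = p) ∧
      1 - 2 / √(Fintype.card F) ≤ p ∧
      LinearIndependent ℂ Q ∧ ∑ i, Q i = (Fintype.card F : ℂ) • (1 : Matrix F F ℂ) := by
  obtain ⟨ψ, f, hψ, hn, hadd⟩ := exists_quad (F := F)
  have hq : (1 : ℝ) < Fintype.card F := by exact_mod_cast Fintype.one_lt_card
  set q : ℝ := (Fintype.card F : ℝ) with hqdef
  set s : ℝ := √q with hs
  have hs2 : s ^ 2 = q := Real.sq_sqrt (by linarith)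
  have hs1 : 1 < s := by
    rw [hs, Real.lt_sqrt (by norm_num)]; simpa using hq
  have hs0 : 0 < s := by linarith
  set v : F → ℂ := fun _ => ((s⁻¹ : ℝ) : ℂ) * 1 with hv
  have hvn : ∀ k, ‖v k‖ ^ 2 = q⁻¹ := by
    intro k
    rw [hv]
    simp only [mul_one, Complex.norm_real, Real.norm_eq_abs, sq_abs]
    rw [inv_pow, hs2]
  have hvs : ∑ k, ‖v k‖ ^ 2 = 1 := by
    simp_rw [hvn]
    rw [Finset.sum_const, Finset.card_univ, nsmul_eq_mul, ← hqdef, mul_inv_cancel₀ (by linarith)]
  have hDn : ∀ (i : F × AddChar F ℂ) k, ‖D f i v k‖ ^ 2 = q⁻¹ := fun i k => by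
    rw [norm_D hn]; exact hvn (k + i.1)
  have hve : ∀ i j : F × AddChar F ℂ, ov (D f i v) (D f j dl) = q⁻¹ := fun i j =>
    ov_flat hn (hDn i) j
  have hvv : ∀ i j : F × AddChar F ℂ, ov (D f i v) (D f j v) =
      if i = j then 1 else if i.1 = j.1 then 0 else q⁻¹ := by
    intro i j
    rw [hv, D_smul, D_smul, ov_smul, ov_quad hψ hn hadd, ← hqdef]
    have h1 : s⁻¹ ^ 2 = q⁻¹ := by rw [inv_pow, hs2]
    have h0 : q ≠ 0 := by linarith
    rw [h1]
    split_ifs
    · field_simp
    · ring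
    · field_simp
  have hee : ∀ i j : F × AddChar F ℂ, ov (D f i dl) (D f j dl) = if i.1 = j.1 then 1 else 0 :=
    ov_dl hn
  have hy : 0 < 1 / (s + 1) := by positivity
  have hy1 : 1 / (s + 1) < 1 := by rw [div_lt_one (by linarith)]; linarith
  obtain ⟨Q, U, Q₀, k1, k2, k3, k4, k5, -, k6, k7, k8, k9, k10⟩ := package (f := f) hn
    (quad_closed hn hadd) Fintype.card_pos
    (x := s / (s + 1)) (y := 1 / (s + 1)) (z := 0) (by positivity) hy.le le_rfl
    (by field_simp; ring) hvs sum_dl hvs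
    (c := (1 - (1 / (s + 1)) ^ 2) / s ^ 2)
    (p := (1 + ((s ^ 2) ^ 2 - 1) * (1 / (s + 1)) ^ 2) / s ^ 2)
    (by
      have : (1 / (s + 1)) ^ 2 ≤ 1 := pow_le_one₀ hy.le hy1.le
      exact div_nonneg (by linarith) (by positivity))
    (by
      refine div_lt_div_of_pos_right ?_ (by positivity)
      have h1 : 0 < (1 / (s + 1)) ^ 2 := by positivity
      have h2 : 0 < (s ^ 2) ^ 2 := by positivity
      nlinarith [mul_pos h2 h1])
    (by
      intro i j hij
      rw [hvv, hee, hve, hve, if_neg hij, ← hs2]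
      by_cases h : i.1 = j.1
      · rw [if_pos h, if_pos h]
        field_simp
        ring
      · rw [if_neg h, if_neg h]
        field_simp
        ring)
    (by
      intro i
      rw [hvv, hee, hve, if_pos rfl, if_pos rfl, ← hs2]
      field_simp
      ring)
  refine ⟨Q, U, Q₀, _, _, k1, k2, k3, k4, k5, k6 rfl, k7, k8, ?_, k9, k10⟩
  rw [le_div_iff₀ (by positivity)]
  have h3 : (1 + ((s ^ 2) ^ 2 - 1) * (1 / (s + 1)) ^ 2) - (1 - 2 / s) * s ^ 2 =
      (1 + 2 * s - s ^ 2) + (s ^ 2 + 1) * (s - 1) / (s + 1) := by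
    field_simp
    ring
  have h4 : 0 ≤ (1 + 2 * s - s ^ 2) + (s ^ 2 + 1) * (s - 1) / (s + 1) := by
    have h5 : (1 + 2 * s - s ^ 2) + (s ^ 2 + 1) * (s - 1) / (s + 1) = 4 * s / (s + 1) := by
      field_simp
      ring
    rw [h5]; positivity
  linarith

end Pool.Agent.Lib.MP_d0f9e0_co.RankTwo
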