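import Mathlib

/-!
# Regular simplices of positive semidefinite matrices: general facts
-/

set_option autoImplicit false

namespace Pool.Agent.Lib.MP_d0f9e0_co.RankTwo

open Finset Matrix

open scoped ComplexOrder

set_option linter.unusedSectionVars false

variable {n ι : Type} [Fintype n] [DecidableEq n] [Fintype ι] [DecidableEq ι]

/-- Rank one matrix of a vector. -/
noncomputable def P (v : n → ℂ) : Matrix n n ℂ := vecMulVec v (star v)

/-- Squared modulus of the inner product. -/
noncomputable def ov (v w : n → ℂ) : ℝ := ‖∑ k, v k * star (w k)‖ ^ 2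

lemma ov_comm (v w : n → ℂ) : ov v w = ov w v := by
  unfold ov
  have h : ∑ k, w k * star (v k) = star (∑ k, v k * star (w k)) := by
    rw [star_sum]
    refine Finset.sum_congr rfl fun k _ => ?_
    rw [star_mul', star_star]; ring
  rw [h, norm_star]

lemma trace_P_mul (v w : n → ℂ) : (P v * P w).trace = (ov v w : ℂ) := by
  unfold P ov
  have h1 : ∑ k, w k * star (v k) = star (∑ k, v k * star (w k)) := by
    rw [star_sum]
    refine Finset.sum_congr rfl fun k _ => ?_
    rw [star_mul', star_star]; ring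
  have h2 : ((‖∑ k, v k * star (w k)‖ ^ 2 : ℝ) : ℂ) =
      (∑ k, v k * star (w k)) * star (∑ k, v k * star (w k)) := by
    rw [Complex.star_def, Complex.mul_conj, Complex.normSq_eq_norm_sq]
  rw [h2, ← h1, Finset.sum_mul_sum, Matrix.trace]
  refine Finset.sum_congr rfl fun k _ => ?_
  rw [Matrix.diag_apply, Matrix.mul_apply]
  refine Finset.sum_congr rfl fun l _ => ?_
  rw [Matrix.vecMulVec_apply, Matrix.vecMulVec_apply, Pi.star_apply, Pi.star_apply]
  ring

lemma trace_P (v : n → ℂ) : (P v).trace = ((∑ k, ‖v k‖ ^ 2 : ℝ) : ℂ) := by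
  unfold P
  rw [Matrix.trace_vecMulVec, dotProduct, Complex.ofReal_sum]
  refine Finset.sum_congr rfl fun k _ => ?_
  rw [Pi.star_apply, Complex.star_def, Complex.mul_conj, Complex.normSq_eq_norm_sq]

lemma P_posSemidef (v : n → ℂ) : (P v).PosSemidef := Matrix.posSemidef_vecMulVec_self_star v

/-- The matrix `x P v + y P e + z P u`. -/
noncomputable def T (x y z : ℝ) (v e u : n → ℂ) : Matrix n n ℂ :=
  (x : ℂ) • P v + (y : ℂ) • P e + (z : ℂ) • P u

lemma T_posSemidef {x y z : ℝ} (hx : 0 ≤ x) (hy : 0 ≤ y) (hz : 0 ≤ z) (v e u : n → ℂ) :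
    (T x y z v e u).PosSemidef := by
  unfold T
  refine Matrix.PosSemidef.add (Matrix.PosSemidef.add ?_ ?_) ?_
  · exact (P_posSemidef v).smul (by exact_mod_cast hx)
  · exact (P_posSemidef e).smul (by exact_mod_cast hy)
  · exact (P_posSemidef u).smul (by exact_mod_cast hz)

lemma rank_smul_P (x : ℂ) (v : n → ℂ) : (x • P v).rank ≤ 1 := by
  unfold P
  rw [← Matrix.smul_vecMulVec]
  exact Matrix.rank_vecMulVec_le _ _

lemma rank_add_le' (A B : Matrix n n ℂ) : (A + B).rank ≤ A.rank + B.rank := by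
  unfold Matrix.rank
  rw [Matrix.mulVecLin_add]
  refine (Submodule.finrank_mono ?_).trans (Submodule.finrank_add_le_finrank_add_finrank _ _)
  rintro _ ⟨x, rfl⟩
  exact Submodule.add_mem_sup ⟨x, rfl⟩ ⟨x, rfl⟩

lemma T_rank (x y z : ℝ) (v e u : n → ℂ) : (T x y z v e u).rank ≤ 3 := by
  unfold T
  refine (rank_add_le' _ _).trans ?_
  have h1 := rank_add_le' ((x : ℂ) • P v) ((y : ℂ) • P e)
  have h2 := rank_smul_P (x : ℂ) v
  have h3 := rank_smul_P (y : ℂ) e
  have h4 := rank_smul_P (z : ℂ) u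
  omega

lemma T_rank_two (x y : ℝ) (v e u : n → ℂ) : (T x y 0 v e u).rank ≤ 2 := by
  unfold T
  rw [Complex.ofReal_zero, zero_smul, add_zero]
  have h1 := rank_add_le' ((x : ℂ) • P v) ((y : ℂ) • P e)
  have h2 := rank_smul_P (x : ℂ) v
  have h3 := rank_smul_P (y : ℂ) e
  omega

lemma T_trace (x y z : ℝ) (v e u : n → ℂ) (hv : ∑ k, ‖v k‖ ^ 2 = 1) (he : ∑ k, ‖e k‖ ^ 2 = 1)
    (hu : ∑ k, ‖u k‖ ^ 2 = 1) (h : x + y + z = 1) : (T x y z v e u).trace = 1 := by
  unfold T
  rw [Matrix.trace_add, Matrix.trace_add, Matrix.trace_smul, Matrix.trace_smul, Matrix.trace_smul,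
    trace_P, trace_P, trace_P, hv, he, hu]
  have : ((x + y + z : ℝ) : ℂ) = 1 := by rw [h]; simp
  push_cast at this
  simpa using this

lemma T_mul_trace (x y z : ℝ) (v e u v' e' u' : n → ℂ) :
    (T x y z v e u * T x y z v' e' u').trace =
      ((x ^ 2 * ov v v' + y ^ 2 * ov e e' + z ^ 2 * ov u u' + x * y * (ov v e' + ov v' e) +
        x * z * (ov v u' + ov v' u) + y * z * (ov e u' + ov e' u) : ℝ) : ℂ) := by
  unfold T
  simp only [Matrix.add_mul, Matrix.mul_add, Matrix.smul_mul, Matrix.mul_smul, Matrix.trace_add,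
    Matrix.trace_smul, trace_P_mul, smul_eq_mul]
  rw [ov_comm e v', ov_comm u v', ov_comm u e']
  push_cast
  ring

/-- Linear independence from the Gram matrix. -/
lemma indep_of_gram (Q : ι → Matrix n n ℂ) (c p : ℝ) (hc : 0 ≤ c) (hcp : c < p)
    (h1 : ∀ i j, i ≠ j → (Q i * Q j).trace = c) (h2 : ∀ i, (Q i * Q i).trace = p) :
    LinearIndependent ℂ Q := by
  rw [Fintype.linearIndependent_iff]
  intro g hg
  have h3 : ∀ j, (c : ℂ) * ∑ i, g i + ((p - c : ℝ) : ℂ) * g j = 0 := by
    intro j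
    have h4 : ((∑ i, g i • Q i) * Q j).trace = 0 := by rw [hg, Matrix.zero_mul, Matrix.trace_zero]
    rw [Finset.sum_mul, Matrix.trace_sum] at h4
    rw [← h4]
    have h5 : ∀ i, ((g i • Q i) * Q j).trace = (c : ℂ) * g i +
        if i = j then ((p - c : ℝ) : ℂ) * g j else 0 := by
      intro i
      rw [Matrix.smul_mul, Matrix.trace_smul, smul_eq_mul]
      split_ifs with hij
      · subst hij
        rw [h2]; push_cast; ring
      · rw [h1 i j hij]; ring
    simp_rw [h5]
    rw [Finset.sum_add_distrib, ← Finset.mul_sum, Finset.sum_ite_eq' univ j]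
    simp
  have hpc : ((p - c : ℝ) : ℂ) ≠ 0 := by
    exact_mod_cast (sub_pos.2 hcp).ne'
  have h6 : ∑ i, g i = 0 := by
    have h7 : ∑ j, ((c : ℂ) * ∑ i, g i + ((p - c : ℝ) : ℂ) * g j) = 0 := by
      simp only [h3, Finset.sum_const_zero]
    rw [Finset.sum_add_distrib, Finset.sum_const, ← Finset.mul_sum, Finset.card_univ,
      nsmul_eq_mul] at h7
    have h8 : (((Fintype.card ι : ℝ) * c + (p - c) : ℝ) : ℂ) * ∑ i, g i = 0 := by
      rw [← h7]; push_cast; ring
    have h9 : (0 : ℝ) < (Fintype.card ι : ℝ) * c + (p - c) := by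
      have : 0 ≤ (Fintype.card ι : ℝ) * c := mul_nonneg (Nat.cast_nonneg _) hc
      linarith
    rcases mul_eq_zero.1 h8 with h | h
    · exact absurd (by exact_mod_cast h) h9.ne'
    · exact h
  intro j
  have h10 := h3 j
  rw [h6, mul_zero, zero_add] at h10
  exact (mul_eq_zero.1 h10).resolve_left hpc

/-- The sum of a simplex of maximal size is a multiple of the identity. -/
lemma sum_of_gram (Q : ι → Matrix n n ℂ) (hcard : Fintype.card ι = Fintype.card n ^ 2)
    (hn : 0 < Fintype.card n) (c p : ℝ)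
    (hli : LinearIndependent ℂ Q) (ht : ∀ i, (Q i).trace = 1)
    (h1 : ∀ i j, i ≠ j → (Q i * Q j).trace = c) (h2 : ∀ i, (Q i * Q i).trace = p) :
    ∑ i, Q i = (Fintype.card n : ℂ) • (1 : Matrix n n ℂ) := by
  have hspan : Submodule.span ℂ (Set.range Q) = ⊤ := by
    apply LinearIndependent.span_eq_top_of_card_eq_finrank' hli
    rw [hcard, Module.finrank_matrix, Module.finrank_self, mul_one, sq]
  set m : ℝ := p + ((Fintype.card ι : ℝ) - 1) * c with hm
  set R : Matrix n n ℂ := ∑ i, Q i - (m : ℂ) • (1 : Matrix n n ℂ) with hR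
  have hQ : ∀ j, (R * Q j).trace = 0 := by
    intro j
    rw [hR, Matrix.sub_mul, Matrix.trace_sub, Matrix.smul_mul, Matrix.one_mul, Matrix.trace_smul,
      ht, Finset.sum_mul, Matrix.trace_sum, smul_eq_mul, mul_one]
    have h5 : ∀ i, (Q i * Q j).trace = (c : ℂ) + if i = j then ((p - c : ℝ) : ℂ) else 0 := by
      intro i
      split_ifs with hij
      · subst hij
        rw [h2]; push_cast; ring
      · rw [h1 i j hij]; ring
    simp_rw [h5]
    rw [Finset.sum_add_distrib, Finset.sum_ite_eq' univ j, Finset.sum_const, Finset.card_univ,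
      nsmul_eq_mul, hm]
    simp only [Finset.mem_univ, if_true]
    push_cast
    ring
  have hall : ∀ X : Matrix n n ℂ, (R * X).trace = 0 := by
    intro X
    have hX : X ∈ Submodule.span ℂ (Set.range Q) := by rw [hspan]; trivial
    induction hX using Submodule.span_induction with
    | mem x hx => obtain ⟨j, rfl⟩ := hx; exact hQ j
    | zero => rw [Matrix.mul_zero, Matrix.trace_zero]
    | add x y _ _ hx hy => rw [Matrix.mul_add, Matrix.trace_add, hx, hy, add_zero]
    | smul a x _ hx => rw [Matrix.mul_smul, Matrix.trace_smul, hx, smul_zero]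
  have hR0 : R = 0 := by
    have := hall (Rᴴ)
    exact Matrix.trace_mul_conjTranspose_self_eq_zero_iff.1 this
  have h6 : ∑ i, Q i = (m : ℂ) • (1 : Matrix n n ℂ) := sub_eq_zero.1 hR0
  have h7 : (Fintype.card ι : ℂ) = (m : ℂ) * (Fintype.card n : ℂ) := by
    have := congrArg Matrix.trace h6
    rw [Matrix.trace_sum, Matrix.trace_smul, Matrix.trace_one] at this
    simp only [ht, Finset.sum_const, Finset.card_univ, nsmul_eq_mul, mul_one, smul_eq_mul] at this
    exact this
  have h8 : (m : ℂ) = (Fintype.card n : ℂ) := by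
    rw [hcard] at h7
    push_cast at h7
    have h9 : (Fintype.card n : ℂ) ≠ 0 := by exact_mod_cast hn.ne'
    exact mul_right_cancel₀ h9 (by rw [← h7, sq])
  rw [h6, h8]

end Pool.Agent.Lib.MP_d0f9e0_co.RankTwo
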