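import Pool.Agent.Lib.MP_d0f9e0_co.RankTwo.Simplex

/-!
# Systems of monomial unitary matrices on a finite abelian group
-/

set_option autoImplicit false

set_option linter.unusedSectionVars false

namespace Pool.Agent.Lib.MP_d0f9e0_co.RankTwo

open Finset Matrix

open scoped ComplexOrder

variable {A : Type} [AddCommGroup A] [Fintype A] [DecidableEq A]

lemma nchar (χ : AddChar A ℂ) (x : A) : ‖χ x‖ = 1 := χ.norm_apply x

lemma schar (χ : AddChar A ℂ) (x : A) : star (χ x) = χ (-x) := by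
  rw [AddChar.map_neg_eq_conj]; rfl

lemma self_star {z : ℂ} (h : ‖z‖ = 1) : z * star z = 1 := by
  rw [Complex.star_def, Complex.mul_conj, Complex.normSq_eq_norm_sq, h]; simp

/-- Displacement with phases. -/
noncomputable def D (f : A → A → ℂ) (i : A × AddChar A ℂ) (φ : A → ℂ) (k : A) : ℂ :=
  i.2 k * f i.1 k * φ (k + i.1)

/-- Matrix of the displacement. -/
noncomputable def Um (f : A → A → ℂ) (i : A × AddChar A ℂ) : Matrix A A ℂ :=
  Matrix.of fun k l => if l = k + i.1 then i.2 k * f i.1 k else 0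

lemma Um_mulVec (f : A → A → ℂ) (i : A × AddChar A ℂ) (φ : A → ℂ) :
    (Um f i) *ᵥ φ = D f i φ := by
  ext k
  show ∑ l, (if l = k + i.1 then i.2 k * f i.1 k else 0) * φ l = _
  simp only [ite_mul, zero_mul, Finset.sum_ite_eq', Finset.mem_univ, if_true]
  rfl

lemma mul_P_mul (M : Matrix A A ℂ) (v : A → ℂ) : M * P v * Mᴴ = P (M *ᵥ v) := by
  unfold P
  rw [Matrix.mul_vecMulVec, Matrix.vecMulVec_mul, Matrix.star_mulVec]

lemma Um_T (f : A → A → ℂ) (i : A × AddChar A ℂ) (x y z : ℝ) (v e u : A → ℂ) :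
    T x y z (D f i v) (D f i e) (D f i u) = Um f i * T x y z v e u * (Um f i)ᴴ := by
  unfold T
  simp only [Matrix.mul_add, Matrix.add_mul, Matrix.mul_smul, Matrix.smul_mul, mul_P_mul,
    Um_mulVec]

variable {f : A → A → ℂ}

lemma Um_unitary (hf : ∀ a k, ‖f a k‖ = 1) (i : A × AddChar A ℂ) :
    Um f i ∈ Matrix.unitaryGroup A ℂ := by
  rw [Matrix.mem_unitaryGroup_iff]
  ext k m
  rw [Matrix.mul_apply]
  have h1 : ∀ l, Um f i k l * (star (Um f i)) l m =
      if l = k + i.1 then (if k = m then 1 else 0) else 0 := by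
    intro l
    rw [Matrix.star_apply]
    show (if l = k + i.1 then i.2 k * f i.1 k else 0) *
      star (if l = m + i.1 then i.2 m * f i.1 m else 0) = _
    by_cases hl : l = k + i.1
    · subst hl
      by_cases hk : k = m
      · subst hk
        simp only [if_true]
        exact self_star (by rw [norm_mul, nchar, hf, one_mul])
      · have : ¬ (k + i.1 = m + i.1) := fun h => hk (add_right_cancel h)
        simp [hk, this]
    · simp [hl]
  simp_rw [h1]
  rw [Finset.sum_ite_eq', if_pos (Finset.mem_univ _), Matrix.one_apply]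

lemma Um_closed (hc : ∀ a b, ∃ (χ : AddChar A ℂ) (z : ℂ), ∀ x,
    f a x * f b (x + a) = z * χ x * f (a + b) x) (i j : A × AddChar A ℂ) :
    ∃ (k : A × AddChar A ℂ) (z : ℂ), Um f i * Um f j = z • Um f k := by
  obtain ⟨χ, z, h⟩ := hc i.1 j.1
  refine ⟨(i.1 + j.1, i.2 * j.2 * χ), z * j.2 i.1, ?_⟩
  ext k m
  rw [Matrix.mul_apply, Matrix.smul_apply, smul_eq_mul]
  show ∑ l, (if l = k + i.1 then i.2 k * f i.1 k else 0) *
      (if m = l + j.1 then j.2 l * f j.1 l else 0) = z * j.2 i.1 *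
      (if m = k + (i.1 + j.1) then (i.2 * j.2 * χ) k * f (i.1 + j.1) k else 0)
  simp only [ite_mul, zero_mul, Finset.sum_ite_eq', Finset.mem_univ, if_true]
  rw [← add_assoc]
  split_ifs with hm
  · rw [AddChar.mul_apply, AddChar.mul_apply, AddChar.map_add_eq_mul]
    calc i.2 k * f i.1 k * (j.2 k * j.2 i.1 * f j.1 (k + i.1))
        = i.2 k * j.2 k * j.2 i.1 * (f i.1 k * f j.1 (k + i.1)) := by ring
      _ = _ := by rw [h]; ring
  · simp

/-- The delta vector. -/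
noncomputable def dl (k : A) : ℂ := if k = 0 then 1 else 0

lemma norm_D (hf : ∀ a k, ‖f a k‖ = 1) (i : A × AddChar A ℂ) (φ : A → ℂ) (k : A) :
    ‖D f i φ k‖ = ‖φ (k + i.1)‖ := by
  unfold D
  rw [norm_mul, norm_mul, nchar, hf, one_mul, one_mul]

lemma sum_norm_D (hf : ∀ a k, ‖f a k‖ = 1) (i : A × AddChar A ℂ) (φ : A → ℂ) :
    ∑ k, ‖D f i φ k‖ ^ 2 = ∑ k, ‖φ k‖ ^ 2 := by
  simp_rw [norm_D hf]
  exact Equiv.sum_comp (Equiv.addRight i.1) fun k => ‖φ k‖ ^ 2

lemma sum_dl : ∑ k : A, ‖dl k‖ ^ 2 = 1 := by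
  rw [Finset.sum_eq_single (0 : A)]
  · simp [dl]
  · intro b _ hb; simp [dl, hb]
  · intro h; exact absurd (Finset.mem_univ _) h

lemma D_dl (i : A × AddChar A ℂ) (k : A) :
    D f i dl k = if k = -i.1 then i.2 k * f i.1 k else 0 := by
  unfold D dl
  by_cases h : k = -i.1
  · subst h; simp
  · have : ¬ (k + i.1 = 0) := fun h' => h (eq_neg_of_add_eq_zero_left h')
    simp [h, this]

/-- Overlap of a flat vector with a displaced delta. -/
lemma ov_flat (hf : ∀ a k, ‖f a k‖ = 1) {φ : A → ℂ} {r : ℝ} (hφ : ∀ k, ‖φ k‖ ^ 2 = r)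
    (j : A × AddChar A ℂ) : ov φ (D f j dl) = r := by
  unfold ov
  simp_rw [D_dl]
  rw [Finset.sum_eq_single (-j.1)]
  · rw [if_pos rfl, norm_mul, norm_star, norm_mul, nchar, hf, one_mul, mul_one, hφ]
  · intro k _ hk; rw [if_neg hk, star_zero, mul_zero]
  · intro h; exact absurd (Finset.mem_univ _) h

lemma ov_dl (hf : ∀ a k, ‖f a k‖ = 1) (i j : A × AddChar A ℂ) :
    ov (D f i dl) (D f j dl) = if i.1 = j.1 then 1 else 0 := by
  unfold ov
  simp_rw [D_dl]
  rw [Finset.sum_eq_single (-j.1)]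
  · rw [if_pos rfl]
    by_cases h : i.1 = j.1
    · rw [if_pos (by rw [h]), if_pos h, norm_mul, norm_star, norm_mul, norm_mul, nchar, hf, nchar,
        hf]
      norm_num
    · rw [if_neg (fun h1 => h (neg_injective h1).symm), if_neg h]
      simp
  · intro k _ hk; rw [if_neg hk, star_zero, mul_zero]
  · intro h; exact absurd (Finset.mem_univ _) h

lemma ov_smul (s t : ℝ) (φ θ : A → ℂ) :
    ov (fun k => (s : ℂ) * φ k) (fun k => (t : ℂ) * θ k) = s ^ 2 * t ^ 2 * ov φ θ := by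
  unfold ov
  have h : ∑ k, (s : ℂ) * φ k * star ((t : ℂ) * θ k) = (s : ℂ) * t * ∑ k, φ k * star (θ k) := by
    rw [Finset.mul_sum]
    refine Finset.sum_congr rfl fun k _ => ?_
    rw [star_mul', show star ((t : ℝ) : ℂ) = t from Complex.conj_ofReal t]
    ring
  rw [h, norm_mul, norm_mul, Complex.norm_real, Complex.norm_real, mul_pow, mul_pow,
    Real.norm_eq_abs, Real.norm_eq_abs, sq_abs, sq_abs]

lemma D_smul (i : A × AddChar A ℂ) (s : ℝ) (φ : A → ℂ) :
    D f i (fun k => (s : ℂ) * φ k) = fun k => (s : ℂ) * D f i φ k := by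
  ext k
  unfold D
  ring

/-- The final package for one system: all the properties of the orbit of `T x y z v e u`. -/
lemma package (hf : ∀ a k, ‖f a k‖ = 1)
    (hc : ∀ a b, ∃ (χ : AddChar A ℂ) (z : ℂ), ∀ x, f a x * f b (x + a) = z * χ x * f (a + b) x)
    (hA : 0 < Fintype.card A)
    {x y z : ℝ} (hx : 0 ≤ x) (hy : 0 ≤ y) (hz : 0 ≤ z) (hxyz : x + y + z = 1)
    {v e u : A → ℂ} (hv : ∑ k, ‖v k‖ ^ 2 = 1) (he : ∑ k, ‖e k‖ ^ 2 = 1) (hu : ∑ k, ‖u k‖ ^ 2 = 1)
    {c p : ℝ} (hc0 : 0 ≤ c) (hcp : c < p)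
    (hne : ∀ i j : A × AddChar A ℂ, i ≠ j →
      x ^ 2 * ov (D f i v) (D f j v) + y ^ 2 * ov (D f i e) (D f j e) +
        z ^ 2 * ov (D f i u) (D f j u) + x * y * (ov (D f i v) (D f j e) + ov (D f j v) (D f i e)) +
        x * z * (ov (D f i v) (D f j u) + ov (D f j v) (D f i u)) +
        y * z * (ov (D f i e) (D f j u) + ov (D f j e) (D f i u)) = c)
    (heq : ∀ i : A × AddChar A ℂ,
      x ^ 2 * ov (D f i v) (D f i v) + y ^ 2 * ov (D f i e) (D f i e) +
        z ^ 2 * ov (D f i u) (D f i u) + x * y * (ov (D f i v) (D f i e) + ov (D f i v) (D f i e)) +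
        x * z * (ov (D f i v) (D f i u) + ov (D f i v) (D f i u)) +
        y * z * (ov (D f i e) (D f i u) + ov (D f i e) (D f i u)) = p) :
    ∃ (Q U : A × AddChar A ℂ → Matrix A A ℂ) (Q₀ : Matrix A A ℂ),
      (∀ i, U i ∈ Matrix.unitaryGroup A ℂ) ∧
      (∀ i j, ∃ (k : A × AddChar A ℂ) (z : ℂ), U i * U j = z • U k) ∧
      (∀ i, Q i = U i * Q₀ * (U i)ᴴ) ∧
      (∀ i, (Q i).PosSemidef) ∧ (∀ i, (Q i).trace = 1) ∧ (∀ i, (Q i).rank ≤ 3) ∧
      (z = 0 → ∀ i, (Q i).rank ≤ 2) ∧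
      (∀ i j, i ≠ j → (Q i * Q j).trace = c) ∧ (∀ i, (Q i * Q i).trace = p) ∧
      LinearIndependent ℂ Q ∧ ∑ i, Q i = (Fintype.card A : ℂ) • (1 : Matrix A A ℂ) := by
  classical
  have g1 : ∀ i j : A × AddChar A ℂ, i ≠ j →
      (T x y z (D f i v) (D f i e) (D f i u) * T x y z (D f j v) (D f j e) (D f j u)).trace =
        (c : ℂ) := by
    intro i j hij
    rw [T_mul_trace, ← hne i j hij]
  have g2 : ∀ i : A × AddChar A ℂ,
      (T x y z (D f i v) (D f i e) (D f i u) * T x y z (D f i v) (D f i e) (D f i u)).trace =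
        (p : ℂ) := by
    intro i
    rw [T_mul_trace, ← heq i]
  have g3 : ∀ i : A × AddChar A ℂ, (T x y z (D f i v) (D f i e) (D f i u)).trace = 1 := fun i =>
    T_trace _ _ _ _ _ _ (by rw [sum_norm_D hf, hv]) (by rw [sum_norm_D hf, he])
      (by rw [sum_norm_D hf, hu]) hxyz
  have g4 : LinearIndependent ℂ
      (fun i : A × AddChar A ℂ => T x y z (D f i v) (D f i e) (D f i u)) :=
    indep_of_gram _ c p hc0 hcp g1 g2
  refine ⟨fun i => T x y z (D f i v) (D f i e) (D f i u), Um f, T x y z v e u, Um_unitary hf,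
    Um_closed hc, fun i => Um_T f i x y z v e u, fun i => T_posSemidef hx hy hz _ _ _, g3,
    fun i => T_rank _ _ _ _ _ _, ?_, g1, g2, g4, ?_⟩
  · intro hz0 i
    subst hz0
    exact T_rank_two _ _ _ _ _
  · refine sum_of_gram _ ?_ hA c p g4 g3 g1 g2
    rw [Fintype.card_prod, AddChar.card_eq, sq]

end Pool.Agent.Lib.MP_d0f9e0_co.RankTwo
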